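import Pool.Agent.H19.KN.Targets
import Pool.Agent.H62.MK.Res

/-!
# Row GRES of kna_modules: the Gersten residue of a small symbol is small (horizontal case)
-/

namespace Pool.Agent.H23.KN

open Pool.Agent.H62.MK Pool.Agent.H19.KN Polynomial Function

universe u

/-- integrality over the range of a ring homomorphism -/
theorem int_range {A : Type u} [CommRing A] {F : Type u} [Field F] (g : A →+* F) (a : F)
    (h : IsIntegral g.range a) : g.IsIntegralElem a := by
  obtain ⟨p, hp, hp0⟩ := h
  obtain ⟨p', hp'⟩ := Polynomial.map_surjective g.rangeRestrict g.rangeRestrict_surjective p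
  have hl : p ∈ Polynomial.lifts g.rangeRestrict := (Polynomial.mem_lifts _).2 ⟨p', hp'⟩
  obtain ⟨q, hq, -, hqm⟩ := Polynomial.lifts_and_natDegree_eq_and_monic hl hp
  refine ⟨q, hqm, ?_⟩
  rw [← hq, Polynomial.eval₂_map] at hp0
  exact hp0

/-- the integral closure of a subring is integrally closed -/
theorem icl_closed {F : Type u} [Field F] (O : Subring F) (E : Type u) [Field E] [Algebra F E] :
    IntClosed (icl O E) := by
  intro x hx
  have h1 : IsIntegral (integralClosure O E) x := hx
  exact isIntegral_trans (R := O) (A := integralClosure O E) x h1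

theorem pf_GRES (hNETA : T_NETA.{u}) (hUMEM : T_UMEM.{u}) (hGOODE : T_GOODE.{u}) : T_GRES.{u} := by
  intro A O F _ _ _ _ _ f π q E n hchar hgood hq hn m x hx
  obtain ⟨B, hB⟩ : ∃ B : Subring (IsLocalRing.ResidueField O),
    B = icl ((IsLocalRing.residue O).comp f).range (IsLocalRing.ResidueField O) := ⟨_, rfl⟩
  obtain ⟨-, -, u3, -, -⟩ := hUMEM (IsLocalRing.ResidueField O) B (IsLocalRing.residue O (f π)) q n
  have hBcl : IntClosed B := by rw [hB]; exact icl_closed _ _
  rw [← hB] at hgood ⊢
  refine gerstenResidue_mem m x _ fun V => ?_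
  have := V.dvr
  let _ := V.resMap.toAlgebra
  by_cases hfd : FiniteDimensional (IsLocalRing.ResidueField O) (IsLocalRing.ResidueField V.val)
  swap
  · have h0 : V.residue m x = 0 := by
      unfold Dom.residue normOf
      rw [AddMonoidHom.comp_apply]
      unfold Pool.Agent.H62.MK.norm
      rw [dif_neg hfd]
      rfl
    rw [h0]
    exact zero_mem _
  have hchar' : CharZero (IsLocalRing.ResidueField V.val) :=
    charZero_of_injective_algebraMap (algebraMap (IsLocalRing.ResidueField O)
      (IsLocalRing.ResidueField V.val)).injective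
  obtain ⟨hG, -⟩ := hGOODE (IsLocalRing.ResidueField O) B (IsLocalRing.residue O (f π)) q E hgood
    (IsLocalRing.ResidueField V.val) (Algebra.IsAlgebraic.of_finite _ _)
  obtain ⟨-, v2, -, -, -⟩ := hUMEM (IsLocalRing.ResidueField V.val)
    (icl B (IsLocalRing.ResidueField V.val))
    (algebraMap (IsLocalRing.ResidueField O) (IsLocalRing.ResidueField V.val)
      (IsLocalRing.residue O (f π))) q n
  have hqV : ∀ (y : MilnorK F (m + 1)), V.residue m (q • y) ∈
      USub q (IsLocalRing.residue O (f π)) n B m := by
    intro y
    rw [map_nsmul]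
    exact u3 m _
  -- the main case
  have hcup : ∀ (u : Fˣ), u ∈ Small (algebraMap O F (f π)) n
      (icl ((algebraMap O F).comp f).range F) → ∀ y : MilnorK F m, V.residue m (cup u y) ∈
      USub q (IsLocalRing.residue O (f π)) n B m := by
    rintro u ⟨a, ha, hu⟩ y
    have hai : ((algebraMap O F).comp f).IsIntegralElem a := int_range _ _ ha
    have haV : a ∈ V.val := V.mem_of_isIntegral f a hai
    -- the residue of a
    obtain ⟨abar, habar⟩ : ∃ abar, abar = IsLocalRing.residue V.val ⟨a, haV⟩ := ⟨_, rfl⟩
    have hres : ∀ c : O, IsLocalRing.residue V.val (V.toVal c) =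
        algebraMap (IsLocalRing.ResidueField O) (IsLocalRing.ResidueField V.val)
          (IsLocalRing.residue O c) := by
      intro c
      have := V.isLocalHom
      exact (IsLocalRing.ResidueField.map_residue V.toVal c).symm
    have habI : abar ∈ icl B (IsLocalRing.ResidueField V.val) := by
      obtain ⟨p, hp, hp0⟩ := hai
      show IsIntegral B abar
      have hmem : ∀ α : A, IsLocalRing.residue O (f α) ∈ B := by
        intro α
        rw [hB]
        have h1 : IsIntegral ((IsLocalRing.residue O).comp f).range
            (algebraMap ((IsLocalRing.residue O).comp f).range (IsLocalRing.ResidueField O)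
              ⟨IsLocalRing.residue O (f α), ⟨α, rfl⟩⟩) := isIntegral_algebraMap
        exact h1
      let j : A →+* B := ((IsLocalRing.residue O).comp f).codRestrict B hmem
      refine ⟨p.map j, hp.map _, ?_⟩
      rw [Polynomial.eval₂_map]
      have e1 : (algebraMap B (IsLocalRing.ResidueField V.val)).comp j =
          ((IsLocalRing.residue V.val).comp V.toVal).comp f := by
        ext α
        exact (hres (f α)).symm
      rw [e1, habar]
      have e2 : Polynomial.eval₂ (V.toVal.comp f) ⟨a, haV⟩ p = 0 := by
        apply Subtype.ext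
        have h2 := Polynomial.hom_eval₂ p (V.toVal.comp f) (V.val.subtype : V.val →+* F) ⟨a, haV⟩
        refine h2.trans ?_
        exact hp0
      have h3 := Polynomial.hom_eval₂ p (V.toVal.comp f) (IsLocalRing.residue V.val) ⟨a, haV⟩
      rw [e2, map_zero] at h3
      exact h3.symm
    -- u in the valuation ring
    have huV : (u : F) ∈ V.val := by
      rw [hu]
      exact V.val.add_mem _ _ V.val.one_mem (V.val.mul_mem _ _ (pow_mem (V.mem (f π)) n) haV)
    have hures : IsLocalRing.residue V.val ⟨(u : F), huV⟩ = 1 +
        (algebraMap (IsLocalRing.ResidueField O) (IsLocalRing.ResidueField V.val)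
          (IsLocalRing.residue O (f π))) ^ n * abar := by
      have e : (⟨(u : F), huV⟩ : V.val) = 1 + (V.toVal (f π)) ^ n * ⟨a, haV⟩ := by
        apply Subtype.ext
        exact hu
      rw [e, map_add, map_one, map_mul, map_pow, hres, habar]
    have hne : IsLocalRing.residue V.val ⟨(u : F), huV⟩ ≠ 0 := by
      rw [hures]
      intro h0
      obtain ⟨n', rfl⟩ : ∃ n', n = n' + 1 := ⟨n - 1, by omega⟩
      obtain ⟨b, -, hb⟩ := hG.jac _ ((icl B (IsLocalRing.ResidueField V.val)).mul_mem
        ((icl B (IsLocalRing.ResidueField V.val)).pow_mem hG.pi_mem n') habI)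
      have e : 1 + algebraMap (IsLocalRing.ResidueField O) (IsLocalRing.ResidueField V.val)
          (IsLocalRing.residue O (f π)) * (algebraMap (IsLocalRing.ResidueField O)
          (IsLocalRing.ResidueField V.val) (IsLocalRing.residue O (f π)) ^ n' * abar) = 0 := by
        rw [← h0]
        ring
      rw [e, zero_mul] at hb
      exact zero_ne_one hb
    have hord : (valDV V.val).ord u = 0 := by
      have h1 : IsUnit (⟨(u : F), huV⟩ : V.val) := by
        by_contra hnu
        exact hne ((IsLocalRing.residue_eq_zero_iff _).2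
          ((IsLocalRing.mem_maximalIdeal _).2 hnu))
      obtain ⟨w, hw⟩ := h1
      refine valDV_ord_eq_zero V.val u huV ?_
      have h2 : ((u⁻¹ : Fˣ) : F) = (((w⁻¹ : V.valˣ) : V.val) : F) := by
        have h3 : (u : F) * (((w⁻¹ : V.valˣ) : V.val) : F) = 1 := by
          have h4 : (w : V.val) * ((w⁻¹ : V.valˣ) : V.val) = 1 := by simp
          have h5 := congrArg (fun z : V.val => (z : F)) h4
          have h6 : ((w : V.val) : F) = (u : F) := by rw [hw]
          rw [← h6]
          exact h5
        rw [Units.val_inv_eq_inv_val]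
        exact (eq_inv_of_mul_eq_one_right h3).symm
      rw [h2]
      exact ((w⁻¹ : V.valˣ) : V.val).2
    have hsmall : (valDV V.val).ures u ∈ Small
        (algebraMap (IsLocalRing.ResidueField O) (IsLocalRing.ResidueField V.val)
          (IsLocalRing.residue O (f π))) n (icl B (IsLocalRing.ResidueField V.val)) := by
      refine ⟨abar, habI, ?_⟩
      rw [(valDV V.val).ures_of_ord_eq_zero u hord, ← hures]
      exact valDV_res V.val ⟨(u : F), huV⟩ _
    have hres0 : ∀ z : MilnorK F (m + 1), V.residue m z =
        Pool.Agent.H62.MK.norm (IsLocalRing.ResidueField O) (IsLocalRing.ResidueField V.val) m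
          (tame (valDV V.val) m z) := fun z => rfl
    rw [hres0]
    cases m with
    | zero =>
      rw [tame_unit_cup_zero (valDV V.val) u hord y, map_zero]
      exact zero_mem _
    | succ m =>
      rw [tame_unit_cup (valDV V.val) m u hord y]
      exact hNETA (IsLocalRing.ResidueField O) (IsLocalRing.ResidueField V.val) B
        (IsLocalRing.residue O (f π)) q E n hgood hBcl hq hn (m + 1) _
        (neg_mem (v2 _ _ hsmall _))
  unfold USub at hx
  refine AddSubgroup.closure_induction (p := fun x _ => V.residue m x ∈
    USub q (IsLocalRing.residue O (f π)) n B m) ?_ ?_ ?_ ?_ hx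
  · rintro x (⟨y, rfl⟩ | ⟨u, hu, y, rfl⟩)
    · exact hqV y
    · exact hcup u hu y
  · rw [map_zero]
    exact zero_mem _
  · intro x y _ _ hx hy
    rw [map_add]
    exact add_mem hx hy
  · intro x _ hx
    rw [map_neg]
    exact neg_mem hx

end Pool.Agent.H23.KN
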