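import Pool.Agent.H19.KN.Targets

/-!
# Row NETAP of kna_modules: small symbols have small Bass-Tate norms
-/

namespace Pool.Agent.H23.KN

open Pool.Agent.H62.MK Pool.Agent.H19.KN Polynomial Function

universe u

theorem cup_pow' {F : Type u} [Field F] {m : ℕ} (v : Fˣ) (q : ℕ) (x : MilnorK F m) :
    cup (v ^ q) x = q • cup v x := by
  have h := cup_zpow v (q : ℤ) x
  rw [zpow_natCast, natCast_zsmul] at h
  exact h

theorem alg_root {K : Type u} [Field K] (P : MI K) : Algebra.IsAlgebraic K (AdjoinRoot P.1) := by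
  have : Module.Finite K (AdjoinRoot P.1) := (AdjoinRoot.powerBasis P.2.2.ne_zero).finite
  exact Algebra.IsAlgebraic.of_finite K (AdjoinRoot P.1)

/-- representatives of small degree -/
theorem repr_root {K : Type u} [Field K] (P : MI K) (y : AdjoinRoot P.1) (hy : y ≠ 0) :
    ∃ f : K[X], f ≠ 0 ∧ f.natDegree < P.1.natDegree ∧ y = AdjoinRoot.mk P.1 f := by
  obtain ⟨g, hg⟩ := AdjoinRoot.mk_surjective (g := P.1) y
  have h1 : AdjoinRoot.mk P.1 (g %ₘ P.1) = y := by
    rw [← hg, AdjoinRoot.mk_eq_mk]
    have h2 := Polynomial.modByMonic_add_div g P.1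
    refine ⟨-(g /ₘ P.1), ?_⟩
    have h3 : g %ₘ P.1 - g = -(P.1 * (g /ₘ P.1)) := by
      nth_rewrite 2 [← h2]
      ring
    rw [h3, mul_neg]
  have hP1 : P.1 ≠ 1 := fun h => P.2.2.not_isUnit (h ▸ isUnit_one)
  refine ⟨g %ₘ P.1, ?_, Polynomial.natDegree_modByMonic_lt g P.2.1 hP1, h1.symm⟩
  intro h
  rw [h, map_zero] at h1
  exact hy h1.symm

theorem pf_NETAP (hNSYM : T_NSYM.{u}) (hNB : T_NB.{u}) (hDISC : T_DISC.{u}) (hROOT : T_ROOT.{u})
    (hGOODE : T_GOODE.{u}) (hUMEM : T_UMEM.{u}) : T_NETAP.{u} := by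
  intro K _ _ O π q E n hO hI hq hn P
  obtain ⟨-, u2, u3, -, -⟩ := hUMEM K O π q n
  -- induction on the degree
  have key : ∀ (d : ℕ) (P : MI K), P.1.natDegree = d → NetaP O π q n P := by
    intro d
    induction d using Nat.strong_induction_on with
    | _ d ih =>
      intro P hPd
      have hpos : 0 < P.1.natDegree := P.2.2.natDegree_pos
      rcases Nat.lt_or_ge P.1.natDegree 2 with h2 | h2
      · exact hNB K O π q E n hO hI P (by omega)
      have hsm : ∀ v : MI K, v.1.natDegree < P.1.natDegree → NetaP O π q n v := fun v hv =>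
        ih v.1.natDegree (by omega) v rfl
      obtain ⟨L, hL⟩ : ∃ L : Subring (AdjoinRoot P.1), L = icl O (AdjoinRoot P.1) := ⟨_, rfl⟩
      obtain ⟨hGL, -⟩ := hGOODE K O π q E hO (AdjoinRoot P.1) (alg_root P)
      have hnorm_q : ∀ m (x : MilnorK (AdjoinRoot P.1) m),
          polyNorm P.1 m (q • x) ∈ USub q π n O m := by
        intro m x
        rw [map_nsmul]
        exact u3 m _
      -- the generators
      have hgen : ∀ (m : ℕ) (u : (AdjoinRoot P.1)ˣ),
          u ∈ Small (algebraMap K (AdjoinRoot P.1) π) n (icl O (AdjoinRoot P.1)) →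
          ∀ z : MilnorK (AdjoinRoot P.1) m, polyNorm P.1 (m + 1) (cup u z) ∈ USub q π n O (m + 1) := by
        intro m u hu z
        refine MilnorK.induction (p := fun z => polyNorm P.1 (m + 1) (cup u z) ∈ USub q π n O (m + 1))
          z ?_ ?_ ?_ ?_
        · rw [map_zero, map_zero]
          exact zero_mem _
        · intro y
          choose f hf0 hfd hfy using fun i => repr_root P (y i : AdjoinRoot P.1) (Units.ne_zero _)
          obtain ⟨k2, -, hk2⟩ := hNSYM K O π q E n hO hI hq hn P h2 hsm m f
            (fun i => ⟨hf0 i, hfd i⟩) 0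
          obtain ⟨k, hk, M0, hM0⟩ := hDISC K O π q E hO hI P k2
          obtain ⟨M1, hM1⟩ := hk2 k hk
          obtain ⟨v, u', ⟨b, hb, hu'⟩, huv⟩ := hROOT (AdjoinRoot P.1) (icl O (AdjoinRoot P.1))
            (algebraMap K (AdjoinRoot P.1) π) q E hGL.toGood0 hq n hn u hu (M1 + M0)
          obtain ⟨g, hg, hgd, hgb⟩ := hM0 b hb
          have hu'' : (u' : AdjoinRoot P.1) = AdjoinRoot.mk P.1 (QQ π M1 k g) := by
            unfold QQ
            rw [map_add, map_one, map_mul, hgb, hu', AdjoinRoot.mk_C, ← AdjoinRoot.algebraMap_eq,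
              map_pow]
            ring
          have h3 := hM1 M1 le_rfl g hg hgd u' y hu'' hfy
          rw [huv, cup_mul, cup_pow', map_add]
          exact add_mem (hnorm_q _ _) h3
        · intro x hx
          rw [map_neg, map_neg]
          exact neg_mem hx
        · intro x y hx hy
          rw [map_add, map_add]
          exact add_mem hx hy
      intro m x hx
      unfold USub at hx
      refine AddSubgroup.closure_induction (p := fun x _ => polyNorm P.1 m x ∈ USub q π n O m)
        ?_ ?_ ?_ ?_ hx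
      · intro x hx
        cases m with
        | zero =>
          obtain ⟨y, rfl⟩ := hx
          exact hnorm_q _ _
        | succ m =>
          rcases hx with ⟨y, rfl⟩ | ⟨u, hu, y, rfl⟩
          · exact hnorm_q _ _
          · exact hgen m u hu y
      · rw [map_zero]
        exact zero_mem _
      · intro x y _ _ hx hy
        rw [map_add]
        exact add_mem hx hy
      · intro x _ hx
        rw [map_neg]
        exact neg_mem hx
  exact key P.1.natDegree P rfl

end Pool.Agent.H23.KN
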