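import Pool.Agent.H19.KN.Targets

/-!
# Row MIX of kna_modules: mixed symbols are small
-/

namespace Pool.Agent.H23.KN

open Pool.Agent.H62.MK Pool.Agent.H19.KN Polynomial Function

universe u

theorem small_iInf {F : Type u} [Field F] {π : F} (hπ : π ≠ 0) {ι : Type} [Nonempty ι]
    {R : ι → Subring F} {n : ℕ} {x : Fˣ} (h : ∀ i, x ∈ Small π n (R i)) :
    x ∈ Small π n (⨅ i, R i) := by
  obtain ⟨i₀⟩ := (inferInstance : Nonempty ι)
  obtain ⟨a, -, ha⟩ := h i₀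
  refine ⟨a, ?_, ha⟩
  rw [Subring.mem_iInf]
  intro i
  obtain ⟨b, hb, hb'⟩ := h i
  have h1 : π ^ n * a = π ^ n * b := by
    have := ha.symm.trans hb'
    exact add_left_cancel this
  have h2 : a = b := mul_left_cancel₀ (pow_ne_zero n hπ) h1
  rw [h2]
  exact hb

theorem frac_up {F : Type u} [Field F] {O : Subring F} {π : F} (hπ : π ∈ O) {k l : ℕ} {x : F}
    (h : π ^ k * x ∈ O) (hkl : k ≤ l) : π ^ l * x ∈ O := by
  obtain ⟨d, rfl⟩ := Nat.exists_eq_add_of_le hkl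
  have : π ^ (k + d) * x = π ^ d * (π ^ k * x) := by ring
  rw [this]
  exact O.mul_mem (O.pow_mem hπ d) h

theorem frac_all {F : Type u} [Field F] {π : F} {q E : ℕ} {ι : Type} [Fintype ι]
    {R : ι → Subring F} (hR : ∀ i, Good (R i) π q E) (xs : List F) :
    ∃ k : ℕ, ∀ i, ∀ x ∈ xs, π ^ k * x ∈ R i := by
  classical
  induction xs with
  | nil => exact ⟨0, fun i x hx => by simp at hx⟩
  | cons x xs ih =>
    obtain ⟨k, hk⟩ := ih
    choose l hl using fun i => (hR i).frac x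
    refine ⟨k + ∑ i, l i, fun i z hz => ?_⟩
    rcases List.mem_cons.1 hz with rfl | hz
    · refine frac_up (hR i).pi_mem (hl i) ?_
      have : l i ≤ ∑ i, l i := Finset.single_le_sum (fun _ _ => Nat.zero_le _) (Finset.mem_univ i)
      omega
    · exact frac_up (hR i).pi_mem (hk i z hz) (Nat.le_add_right _ _)

theorem pf_MIX (hTID : T_TID.{u}) (hGRP : T_GRP.{u}) (hUMEM : T_UMEM.{u}) : T_MIX.{u} := by
  classical
  intro F _ π q E ι _ _ R hR hA n hn a b hab m y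
  obtain ⟨i₀⟩ := (inferInstance : Nonempty ι)
  have hπ : π ≠ 0 := (hR i₀).pi_ne
  obtain ⟨u1, u2, -, -, -⟩ := hUMEM F (⨅ i, R i) π q n
  obtain ⟨k, hk⟩ := frac_all hR [(a : F), (b : F), ((a⁻¹ : Fˣ) : F), ((b⁻¹ : Fˣ) : F),
    (a : F) - 1, (b : F) - 1]
  obtain ⟨N, hN⟩ : ∃ N : ℕ, N = n + k := ⟨_, rfl⟩
  obtain ⟨a', ha'⟩ := hA (fun i => if a ∈ Small π n (R i) then 1 else (a : F)) (2 * N)
  obtain ⟨b', hb'⟩ := hA (fun i => if a ∈ Small π n (R i) then (b : F) else 1) (2 * N)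
  -- one side near a unit
  have near : ∀ (i : ι) (g : Fˣ) (x c : F), π ^ k * ((g⁻¹ : Fˣ) : F) ∈ R i → c ∈ R i →
      x = g + π ^ (2 * N) * c → ∃ r ∈ R i, x = g * (1 + π ^ n * r) := by
    intro i g x c hg hc hx
    refine ⟨π ^ (2 * N - n - k) * c * (π ^ k * ((g⁻¹ : Fˣ) : F)),
      (R i).mul_mem ((R i).mul_mem ((R i).pow_mem (hR i).pi_mem _) hc) hg, ?_⟩
    have h1 : π ^ n * (π ^ (2 * N - n - k) * c * (π ^ k * ((g⁻¹ : Fˣ) : F))) =
        (π ^ n * π ^ (2 * N - n - k) * π ^ k) * c * ((g⁻¹ : Fˣ) : F) := by ring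
    have h2 : π ^ n * π ^ (2 * N - n - k) * π ^ k = π ^ (2 * N) := by
      rw [← pow_add, ← pow_add]
      congr 1
      omega
    rw [h1, h2, mul_add, mul_one, hx]
    have h3 : (g : F) * (π ^ (2 * N) * c * ((g⁻¹ : Fˣ) : F)) =
        π ^ (2 * N) * c * ((g : F) * ((g⁻¹ : Fˣ) : F)) := by ring
    rw [h3, Units.mul_inv, mul_one]
  have ne1 : ∀ (i : ι) (r : F), r ∈ R i → 1 + π ^ n * r ≠ 0 := fun i r hr =>
    (hGRP F (R i) π q E (hR i).toGood0 n hn).2.2.2.2.1 r hr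
  -- the unit near which a' and b' are
  have hside : ∀ i, (∃ r ∈ R i, a' = (if a ∈ Small π n (R i) then (1 : Fˣ) else a : Fˣ) *
        (1 + π ^ n * r)) ∧
      (∃ r ∈ R i, b' = (if a ∈ Small π n (R i) then b else (1 : Fˣ) : Fˣ) * (1 + π ^ n * r)) := by
    intro i
    have h1 : π ^ k * (((1 : Fˣ)⁻¹ : Fˣ) : F) ∈ R i := by
      rw [inv_one, Units.val_one, mul_one]
      exact (R i).pow_mem (hR i).pi_mem _
    obtain ⟨c, hc, hac⟩ := ha' i
    obtain ⟨d, hd, hbd⟩ := hb' i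
    by_cases hi : a ∈ Small π n (R i)
    · simp only [if_pos hi] at hac hbd ⊢
      exact ⟨near i 1 a' c h1 hc (by rw [hac, Units.val_one]),
        near i b b' d (hk i _ (by simp)) hd hbd⟩
    · simp only [if_neg hi] at hac hbd ⊢
      exact ⟨near i a a' c (hk i _ (by simp)) hc hac,
        near i 1 b' d h1 hd (by rw [hbd, Units.val_one])⟩
  have ha0 : a' ≠ 0 := by
    obtain ⟨⟨r, hr, h⟩, -⟩ := hside i₀
    rw [h]
    exact mul_ne_zero (Units.ne_zero _) (ne1 i₀ r hr)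
  have hb0 : b' ≠ 0 := by
    obtain ⟨-, ⟨r, hr, h⟩⟩ := hside i₀
    rw [h]
    exact mul_ne_zero (Units.ne_zero _) (ne1 i₀ r hr)
  obtain ⟨A, hAv⟩ : ∃ A : Fˣ, (A : F) = a' := ⟨Units.mk0 a' ha0, rfl⟩
  obtain ⟨B, hBv⟩ : ∃ B : Fˣ, (B : F) = b' := ⟨Units.mk0 b' hb0, rfl⟩
  -- quotients are small
  have hquot : ∀ (i : ι) (g x : Fˣ), (∃ r ∈ R i, (x : F) = g * (1 + π ^ n * r)) →
      g / x ∈ Small π n (R i) := by
    intro i g x hx
    obtain ⟨r, hr, hx⟩ := hx
    have h1 : x / g ∈ Small π n (R i) := by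
      refine ⟨r, hr, ?_⟩
      rw [Units.val_div_eq_div_val, hx, mul_div_cancel_left₀ _ (Units.ne_zero g)]
    have h2 := (hGRP F (R i) π q E (hR i).toGood0 n hn).2.2.1 _ h1
    rwa [inv_div] at h2
  have hmul : ∀ (i : ι) (x z : Fˣ), x ∈ Small π n (R i) → z ∈ Small π n (R i) →
      x * z ∈ Small π n (R i) := fun i x z hx hz =>
    (hGRP F (R i) π q E (hR i).toGood0 n hn).2.1 x hx z hz
  have hqa : a / A ∈ Small π n (⨅ i, R i) := by
    refine small_iInf hπ fun i => ?_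
    obtain ⟨⟨r, hr, h⟩, -⟩ := hside i
    rw [← hAv] at h
    have h1 := hquot i _ A ⟨r, hr, h⟩
    by_cases hi : a ∈ Small π n (R i)
    · rw [if_pos hi] at h1
      have h2 := hmul i a (1 / A) hi h1
      rwa [mul_one_div] at h2
    · rwa [if_neg hi] at h1
  have hqb : b / B ∈ Small π n (⨅ i, R i) := by
    refine small_iInf hπ fun i => ?_
    obtain ⟨-, ⟨r, hr, h⟩⟩ := hside i
    rw [← hBv] at h
    have h1 := hquot i _ B ⟨r, hr, h⟩
    by_cases hi : a ∈ Small π n (R i)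
    · rwa [if_pos hi] at h1
    · rw [if_neg hi] at h1
      have hb : b ∈ Small π n (R i) := (hab i).resolve_left hi
      have h2 := hmul i b (1 / B) hb h1
      rwa [mul_one_div] at h2
  -- reduction to A, B
  have hred : cup A (cup B y) ∈ USub q π n (⨅ i, R i) (m + 2) →
      cup a (cup b y) ∈ USub q π n (⨅ i, R i) (m + 2) := by
    intro h
    have e1 : a = (a / A) * A := (div_mul_cancel a A).symm
    have e2 : b = (b / B) * B := (div_mul_cancel b B).symm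
    have e3 : cup a (cup b y) = cup (a / A) (cup b y) + (cup A (cup (b / B) y) + cup A (cup B y)) := by
      rw [← map_add, ← cup_mul, ← e2, ← cup_mul, ← e1]
    rw [e3]
    exact add_mem (u2 _ _ hqa _) (add_mem (u1 _ _ _ (u2 _ _ hqb _)) h)
  apply hred
  -- the product of al and be
  have hprod : ∀ i, ∃ r ∈ R i, (a' - 1) * (b' - 1) = π ^ n * r := by
    intro i
    obtain ⟨c, hc, hac⟩ := ha' i
    obtain ⟨d, hd, hbd⟩ := hb' i
    have hpw : ∀ j, π ^ j ∈ R i := fun j => (R i).pow_mem (hR i).pi_mem j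
    by_cases hi : a ∈ Small π n (R i)
    · simp only [if_pos hi] at hac hbd
      refine ⟨π ^ (2 * N - n - k) * c * (π ^ k * ((b : F) - 1) + π ^ (2 * N + k) * d),
        (R i).mul_mem ((R i).mul_mem (hpw _) hc) ((R i).add_mem (hk i _ (by simp))
          ((R i).mul_mem (hpw _) hd)), ?_⟩
      have h2 : π ^ n * π ^ (2 * N - n - k) * π ^ k = π ^ (2 * N) := by
        rw [← pow_add, ← pow_add]
        congr 1
        omega
      rw [hac, hbd]
      calc (1 + π ^ (2 * N) * c - 1) * ((b : F) + π ^ (2 * N) * d - 1)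
          = π ^ (2 * N) * c * (((b : F) - 1) + π ^ (2 * N) * d) := by ring
        _ = (π ^ n * π ^ (2 * N - n - k) * π ^ k) * c * (((b : F) - 1) + π ^ (2 * N) * d) := by
            rw [h2]
        _ = _ := by ring
    · simp only [if_neg hi] at hac hbd
      refine ⟨π ^ (2 * N - n - k) * d * (π ^ k * ((a : F) - 1) + π ^ (2 * N + k) * c),
        (R i).mul_mem ((R i).mul_mem (hpw _) hd) ((R i).add_mem (hk i _ (by simp))
          ((R i).mul_mem (hpw _) hc)), ?_⟩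
      have h2 : π ^ n * π ^ (2 * N - n - k) * π ^ k = π ^ (2 * N) := by
        rw [← pow_add, ← pow_add]
        congr 1
        omega
      rw [hac, hbd]
      calc ((a : F) + π ^ (2 * N) * c - 1) * (1 + π ^ (2 * N) * d - 1)
          = π ^ (2 * N) * d * (((a : F) - 1) + π ^ (2 * N) * c) := by ring
        _ = (π ^ n * π ^ (2 * N - n - k) * π ^ k) * d * (((a : F) - 1) + π ^ (2 * N) * c) := by
            rw [h2]
        _ = _ := by ring
  by_cases hal : a' - 1 = 0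
  · have : A = 1 := Units.ext (by rw [hAv, Units.val_one]; exact sub_eq_zero.1 hal)
    rw [this, cup_one]
    exact zero_mem _
  by_cases hbe : b' - 1 = 0
  · have : B = 1 := Units.ext (by rw [hBv, Units.val_one]; exact sub_eq_zero.1 hbe)
    rw [this, cup_one, map_zero]
    exact zero_mem _
  have hw0 : 1 - (a' - 1) * (b' - 1) ≠ 0 := by
    obtain ⟨r, hr, h⟩ := hprod i₀
    have h1 := ne1 i₀ (-r) ((R i₀).neg_mem hr)
    rw [h]
    intro h2
    apply h1
    rw [← h2]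
    ring
  have ht0 : (b' - 1) * (1 + (a' - 1)) / (1 + (b' - 1)) ≠ 0 := by
    rw [add_sub_cancel, add_sub_cancel]
    exact div_ne_zero (mul_ne_zero hbe ha0) hb0
  obtain ⟨w, hw⟩ : ∃ w : Fˣ, (w : F) = 1 - (a' - 1) * (b' - 1) := ⟨Units.mk0 _ hw0, rfl⟩
  obtain ⟨t, ht⟩ : ∃ t : Fˣ, (t : F) = (b' - 1) * (1 + (a' - 1)) / (1 + (b' - 1)) :=
    ⟨Units.mk0 _ ht0, rfl⟩
  rw [hTID F m (a' - 1) (b' - 1) A B w t (by rw [hAv]; ring) (by rw [hBv]; ring) hw ht y]
  refine neg_mem (u2 _ _ (small_iInf hπ fun i => ?_) _)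
  obtain ⟨r, hr, h⟩ := hprod i
  refine ⟨-r, (R i).neg_mem hr, ?_⟩
  rw [hw, h]
  ring

end Pool.Agent.H23.KN
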