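import Pool.Agent.H19.KN.Targets

/-!
# Row WA2 of kna_modules: an element which is small at every `R i` is small for the intersection
-/

namespace Pool.Agent.H23.KN

open Pool.Agent.H62.MK Pool.Agent.H19.KN Polynomial Function

universe u

/-- a homomorphism out of a Milnor K-group as a multilinear map -/
noncomputable def ml {F : Type u} [Field F] {m : ℕ} {Q : Type u} [AddCommGroup Q]
    (φ : MilnorK F m →+ Q) : MultilinearMap ℤ (fun _ : Fin m => Additive Fˣ) Q where
  toFun a := φ (sym fun k => (a k).toMul)
  map_update_add' := by
    intro inst a i x y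
    obtain rfl := Subsingleton.elim inst (instDecidableEqFin m)
    have e : ∀ z : Additive Fˣ, (fun k => (update a i z k).toMul) =
        update (fun k => (a k).toMul) i z.toMul := by
      intro z
      funext k
      by_cases h : k = i
      · subst h
        rw [update_self, update_self]
      · rw [update_of_ne h, update_of_ne h]
    rw [e, e, e, ← map_add]
    exact congrArg φ (sym_update_mul _ _ _ _)
  map_update_smul' := by
    intro inst a i c x
    obtain rfl := Subsingleton.elim inst (instDecidableEqFin m)
    have e : ∀ z : Additive Fˣ, (fun k => (update a i z k).toMul) =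
        update (fun k => (a k).toMul) i z.toMul := by
      intro z
      funext k
      by_cases h : k = i
      · subst h
        rw [update_self, update_self]
      · rw [update_of_ne h, update_of_ne h]
    rw [e, e]
    let H : Additive Fˣ →+ Q := AddMonoidHom.mk'
      (fun z => φ (sym (update (fun k => (a k).toMul) i z.toMul))) (by
        intro z z'
        rw [← map_add]
        exact congrArg φ (sym_update_mul _ _ _ _))
    exact map_zsmul H c x

theorem ml_apply {F : Type u} [Field F] {m : ℕ} {Q : Type u} [AddCommGroup Q]
    (φ : MilnorK F m →+ Q) (a : Fin m → Additive Fˣ) : ml φ a = φ (sym fun k => (a k).toMul) := rfl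

theorem small_iInf' {F : Type u} [Field F] {π : F} (hπ : π ≠ 0) {ι : Type} [Nonempty ι]
    {R : ι → Subring F} {n : ℕ} {x : Fˣ} (h : ∀ i, x ∈ Small π n (R i)) :
    x ∈ Small π n (⨅ i, R i) := by
  obtain ⟨i₀⟩ := (inferInstance : Nonempty ι)
  obtain ⟨a, -, ha⟩ := h i₀
  refine ⟨a, ?_, ha⟩
  rw [Subring.mem_iInf]
  intro i
  obtain ⟨b, hb, hb'⟩ := h i
  have h1 : π ^ n * a = π ^ n * b := by
    have := ha.symm.trans hb'
    exact add_left_cancel this
  have h2 : a = b := mul_left_cancel₀ (pow_ne_zero n hπ) h1
  rw [h2]
  exact hb

/-- a symbol with two adjacent entries as in MIX is small -/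
theorem adj (hMIX : T_MIX.{u}) (hUMEM : T_UMEM.{u}) {F : Type u} [Field F] {π : F} {q E : ℕ}
    {ι : Type} [Fintype ι] [Nonempty ι] {R : ι → Subring F} (hR : ∀ i, Good (R i) π q E)
    (hA : Approx π R) {n : ℕ} (hn : 1 ≤ n) :
    ∀ (m p : ℕ) (a : Fin m → Fˣ) (hp : p + 1 < m),
      (∀ i, a ⟨p, by omega⟩ ∈ Small π n (R i) ∨ a ⟨p + 1, hp⟩ ∈ Small π n (R i)) →
      sym a ∈ USub q π n (⨅ i, R i) m := by
  intro m
  induction m with
  | zero =>
    intro p a hp
    omega
  | succ m ih =>
    intro p a hp h
    have e : sym a = cup (a 0) (sym (Fin.tail a)) := by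
      rw [← sym_cons, Fin.cons_self_tail]
    rw [e]
    cases p with
    | zero =>
      cases m with
      | zero => omega
      | succ m =>
        have e2 : sym (Fin.tail a) = cup (a 1) (sym (Fin.tail (Fin.tail a))) := by
          rw [← sym_cons]
          congr 1
          exact (Fin.cons_self_tail (Fin.tail a)).symm
        rw [e2]
        exact hMIX F π q E ι R hR hA n hn (a 0) (a 1) h m _
    | succ p => exact (hUMEM F (⨅ i, R i) π q n).1 m (a 0) _ (ih p (Fin.tail a) (by omega) h)

theorem pf_WA2 (hPHI : T_PHI.{u}) (hMIX : T_MIX.{u}) (hAPW : T_APW.{u}) (hUMEM : T_UMEM.{u})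
    (hGRP : T_GRP.{u}) : T_WA2.{u} := by
  classical
  intro F _ π q E ι _ R hR hA n hn m c hc hne
  obtain ⟨i₀⟩ := hne
  have hne : Nonempty ι := ⟨i₀⟩
  have hπ : π ≠ 0 := (hR i₀).pi_ne
  cases m with
  | zero => exact hc i₀
  | succ m =>
    choose φ hφ1 hφ2 using hPHI F π q E ι R hR hA n hn m
    obtain ⟨mk, hmk⟩ : ∃ mk : MilnorK F (m + 1) →+
        MilnorK F (m + 1) ⧸ USub q π n (⨅ i, R i) (m + 1), mk = QuotientAddGroup.mk' _ := ⟨_, rfl⟩
    have hmk0 : ∀ x, x ∈ USub q π n (⨅ i, R i) (m + 1) → mk x = 0 := by
      intro x hx
      rw [hmk]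
      exact (QuotientAddGroup.eq_zero_iff x).2 hx
    have key : mk = ∑ i, φ i := by
      refine hom_ext fun g => ?_
      -- approximations
      choose G hG using fun (k : Fin (m + 1)) (i : ι) =>
        hAPW F π q E ι R hR hA n hn (fun j => if j = i then g k else 1)
      have hG1 : ∀ k i, G k i / g k ∈ Small π n (R i) := by
        intro k i
        have := hG k i i
        rwa [if_pos rfl] at this
      have hG2 : ∀ k i j, j ≠ i → G k i ∈ Small π n (R j) := by
        intro k i j hj
        have := hG k i j
        rwa [if_neg hj, div_one] at this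
      have hgrp := fun i => hGRP F (R i) π q E (hR i).toGood0 n hn
      have hprodS : ∀ (j : ι) (s : Finset ι) (f : ι → Fˣ), (∀ i ∈ s, f i ∈ Small π n (R j)) →
          ∏ i ∈ s, f i ∈ Small π n (R j) := by
        intro j s f hf
        induction s using Finset.induction_on with
        | empty =>
          rw [Finset.prod_empty]
          exact (hgrp j).1
        | insert i s hi ih =>
          rw [Finset.prod_insert hi]
          exact (hgrp j).2.1 _ (hf i (Finset.mem_insert_self _ _)) _
            (ih fun i' hi' => hf i' (Finset.mem_insert_of_mem hi'))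
      have hs : ∀ k, g k / ∏ i, G k i ∈ Small π n (⨅ i, R i) := by
        intro k
        refine small_iInf' hπ fun j => ?_
        have h1 : (∏ i, G k i) / g k ∈ Small π n (R j) := by
          have h2 : ∏ i, G k i = G k j * ∏ i ∈ Finset.univ.erase j, G k i :=
            (Finset.mul_prod_erase _ _ (Finset.mem_univ j)).symm
          rw [h2, mul_div_right_comm]
          exact (hgrp j).2.1 _ (hG1 k j) _ (hprodS j _ _ fun i hi =>
            hG2 k i j (Finset.ne_of_mem_erase hi).symm)
        have h3 := (hgrp j).2.2.1 _ h1
        rwa [inv_div] at h3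
      -- expansion
      let G' : Fin (m + 1) → Option ι → Additive Fˣ := fun k o =>
        Option.elim o (Additive.ofMul (g k / ∏ i, G k i)) (fun i => Additive.ofMul (G k i))
      have hsum : ∀ k, ∑ o, G' k o = Additive.ofMul (g k) := by
        intro k
        rw [Fintype.sum_option]
        have : ∑ i, G' k (some i) = Additive.ofMul (∏ i, G k i) := by
          rw [ofMul_prod]
          rfl
        rw [this]
        show Additive.ofMul (g k / ∏ i, G k i) + Additive.ofMul (∏ i, G k i) = _
        rw [← ofMul_mul, div_mul_cancel]
      have hexp : mk (sym g) = ∑ τ : Fin (m + 1) → Option ι,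
          mk (sym fun k => (G' k (τ k)).toMul) := by
        have h1 := (ml mk).map_sum (fun k (o : Option ι) => G' k o)
        rw [ml_apply] at h1
        have h2 : (fun k => (∑ o, G' k o).toMul) = g := by
          funext k
          rw [hsum]
          rfl
        rw [h2] at h1
        exact h1
      rw [hexp]
      -- the constant maps
      have hzero : ∀ τ : Fin (m + 1) → Option ι, (∀ i : ι, τ ≠ fun _ => some i) →
          mk (sym fun k => (G' k (τ k)).toMul) = 0 := by
        intro τ hτ
        apply hmk0
        by_cases hnone : ∃ k, τ k = none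
        · obtain ⟨k, hk⟩ := hnone
          refine (hUMEM F (⨅ i, R i) π q n).2.2.2.1 (m + 1) _ k ?_
          show (G' k (τ k)).toMul ∈ _
          rw [hk]
          exact hs k
        · have hsome : ∀ k, ∃ i, τ k = some i := fun k =>
            Option.ne_none_iff_exists'.1 fun h => hnone ⟨k, h⟩
          choose σ hσ using hsome
          -- two adjacent different values
          have hadj : ∃ (p : ℕ) (hp : p + 1 < m + 1), σ ⟨p, by omega⟩ ≠ σ ⟨p + 1, hp⟩ := by
            by_contra hcon
            apply hτ (σ 0)
            funext k
            rw [hσ k]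
            have : ∀ (p : ℕ) (hp : p < m + 1), σ ⟨p, hp⟩ = σ 0 := by
              intro p
              induction p with
              | zero => intro _; rfl
              | succ p ih =>
                intro hp
                have h1 : σ ⟨p, by omega⟩ = σ ⟨p + 1, hp⟩ := by
                  by_contra h
                  exact hcon ⟨p, hp, h⟩
                rw [← h1]
                exact ih (by omega)
            exact congrArg some (this k.1 k.2)
          obtain ⟨p, hp, hne'⟩ := hadj
          refine adj hMIX hUMEM hR hA hn (m + 1) p _ hp fun l => ?_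
          show (G' ⟨p, _⟩ (τ ⟨p, _⟩)).toMul ∈ _ ∨ (G' ⟨p + 1, _⟩ (τ ⟨p + 1, _⟩)).toMul ∈ _
          rw [hσ, hσ]
          by_cases hl : l = σ ⟨p, by omega⟩
          · right
            exact hG2 _ _ l fun h => hne' (by rw [← hl, h])
          · left
            exact hG2 _ _ l hl
      have hconst : ∀ i : ι, mk (sym fun k => (G' k (some i)).toMul) = φ i (sym g) := by
        intro i
        rw [hφ2 i g (fun k => G k i) (fun k => hG1 k i) (fun k j hj => hG2 k i j hj), hmk]
        rfl
      rw [AddMonoidHom.finsetSum_apply]
      have hinj : Function.Injective (fun (i : ι) => (fun _ : Fin (m + 1) => some i)) := by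
        intro i j h
        exact Option.some_injective _ (congrFun h 0)
      have h2 : ∑ τ : Fin (m + 1) → Option ι, mk (sym fun k => (G' k (τ k)).toMul) =
          ∑ τ ∈ (Finset.univ : Finset ι).image (fun (i : ι) => (fun _ : Fin (m + 1) => some i)),
            mk (sym fun k => (G' k (τ k)).toMul) := by
        symm
        refine Finset.sum_subset (Finset.subset_univ _) fun τ _ hτ => hzero τ fun i hi => hτ ?_
        rw [hi]
        exact Finset.mem_image_of_mem _ (Finset.mem_univ i)
      rw [h2, Finset.sum_image fun i _ j _ h => hinj h]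
      exact Finset.sum_congr rfl fun i _ => hconst i
    have h1 : mk c = 0 := by
      rw [key, AddMonoidHom.finsetSum_apply]
      exact Finset.sum_eq_zero fun i _ => hφ1 i c (hc i)
    rw [hmk] at h1
    exact (QuotientAddGroup.eq_zero_iff c).1 h1

end Pool.Agent.H23.KN
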